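import Pool.Agent.W540.GM.AngE

/-!
GM-H: angular sums by van der Corput: the main theorem.
-/

set_option autoImplicit false

namespace Pool.Agent.W540.GM

open Finset Complex
open Pool.Agent.W78.GM
open GaussianInt (toComplex)

/-- decomposition into cells -/
lemma sum_ball_eq {S : ℕ} {Y : ℝ} {A : ℕ}
    (hA : ∀ z ∈ ball Y, |z.re / (S : ℤ)| ≤ A ∧ |z.im / (S : ℤ)| ≤ A) (f : GaussianInt → ℂ) :
    ∑ z ∈ ball Y, f z =
      ∑ p ∈ (Icc (-(A : ℤ)) A) ×ˢ (Icc (-(A : ℤ)) A), ∑ z ∈ cl S Y p, f z := by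
  rw [← sum_fiberwise_of_maps_to (g := fun z : GaussianInt => (z.re / (S : ℤ), z.im / (S : ℤ)))
    (t := (Icc (-(A : ℤ)) A) ×ˢ (Icc (-(A : ℤ)) A))]
  · rfl
  · intro z hz
    obtain ⟨h1, h2⟩ := hA z hz
    rw [mem_product, mem_Icc, mem_Icc]
    exact ⟨abs_le.1 h1, abs_le.1 h2⟩

lemma abs_ediv_le {S : ℕ} (hS : 1 ≤ S) {x : ℤ} {r : ℝ} {A : ℕ} (hx : |(x : ℝ)| ≤ r)
    (hA : r + S ≤ A * S) : |x / (S : ℤ)| ≤ A := by
  have hS0 : (0 : ℤ) < S := by exact_mod_cast hS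
  have hS0' : (0 : ℝ) < S := by exact_mod_cast hS
  have h1 := Int.emod_add_mul_ediv x S
  have h3 := Int.emod_nonneg x hS0.ne'
  have h5 := Int.emod_lt_of_pos x hS0
  rw [abs_le] at hx
  have h6 : ((x % S : ℤ) : ℝ) + S * ((x / S : ℤ) : ℝ) = x := by exact_mod_cast h1
  have h7 : (0 : ℝ) ≤ ((x % S : ℤ) : ℝ) := by exact_mod_cast h3
  have h8 : ((x % S : ℤ) : ℝ) ≤ S := by exact_mod_cast h5.le
  have h9 : |((x / (S : ℤ) : ℤ) : ℝ)| ≤ A := by
    rw [abs_le]
    constructor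
    · have : (S : ℝ) * (-(A : ℝ)) ≤ S * ((x / S : ℤ) : ℝ) := by linarith [hx.1]
      exact le_of_mul_le_mul_left this hS0'
    · have : (S : ℝ) * ((x / S : ℤ) : ℝ) ≤ S * (A : ℝ) := by linarith [hx.2]
      exact le_of_mul_le_mul_left this hS0'
  exact_mod_cast h9

/-- the annulus `Y/4 < nm z ≤ Y`, `Y` large -/
lemma annulus_large (M : ℕ) : ∃ η : ℝ, 0 < η ∧ η ≤ 1 ∧ ∃ C : ℝ, 0 < C ∧ ∃ R : ℝ, 1 ≤ R ∧
    ∀ (Y : ℝ) (k : ℤ), R ≤ Real.sqrt Y → 7 ≤ |(k : ℝ)| → |(k : ℝ)| ≤ Y ^ M →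
      ‖∑ z ∈ ball Y, ps k z - ∑ z ∈ ball (Y / 4), ps k z‖ ≤
        C * (Y ^ (1 - η / 2) + Y / |(k : ℝ)|) := by
  set T : ℕ := 4 * M + 4 with hT
  have hT1 : 1 ≤ T := by omega
  have hT' : (1 : ℝ) ≤ T := by exact_mod_cast hT1
  set R₀ : ℝ := 40960 * T ^ 2 with hR₀
  have hR₀1 : 1 ≤ R₀ := by rw [hR₀]; nlinarith
  obtain ⟨η, hη, hη1, C, hC, hline⟩ := line_bound (4 * M) (x₀ := 1 / (40960 * T ^ 2 * 32))
    (τ₀ := 6 / (32 * T + 2)) (by positivity)
    (by rw [div_le_one (by positivity)]; nlinarith) (by positivity)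
  rw [← hT] at hline
  set A : ℕ := ⌈2 * R₀⌉₊ + 1 with hA
  have hA0 : 2 * R₀ + 1 ≤ (A : ℝ) := by
    rw [hA]; push_cast
    linarith [Nat.le_ceil (2 * R₀)]
  refine ⟨η, hη, hη1, ((2 * A + 1 : ℕ) : ℝ) ^ 2 * (2 * (257 * T * (C * 2))), by positivity,
    R₀ ^ 2, one_le_pow₀ hR₀1, ?_⟩
  intro Y k hY hk7 hkM
  set r : ℝ := Real.sqrt Y with hr
  have hr1 : R₀ ≤ r := by
    refine le_trans ?_ hY
    nlinarith
  have hr1' : 1 ≤ r := hR₀1.trans hr1
  have hY0 : 0 < Y := by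
    by_contra hcon
    push Not at hcon
    rw [hr, Real.sqrt_eq_zero_of_nonpos hcon] at hr1'
    linarith
  have hr2 : r ^ 2 = Y := Real.sq_sqrt hY0.le
  set S : ℕ := ⌊r / R₀⌋₊ with hS
  have hy1 : 1 ≤ r / R₀ := by rw [le_div_iff₀ (by linarith)]; linarith
  have hS1 : 1 ≤ S := Nat.le_floor (by exact_mod_cast hy1)
  have hSle : (S : ℝ) ≤ r / R₀ := Nat.floor_le (by positivity)
  have hSge : r / R₀ / 2 ≤ (S : ℝ) := by
    have h1 : (1 : ℝ) ≤ S := by exact_mod_cast hS1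
    have h2 := Nat.lt_floor_add_one (r / R₀)
    rw [← hS] at h2
    linarith
  have hS0 : (0 : ℝ) < S := by exact_mod_cast hS1
  have hSr : (S : ℝ) ≤ r := hSle.trans (div_le_self (by linarith) hR₀1)
  have hk0 : 0 < |(k : ℝ)| := by linarith
  -- `|k| ≤ J ^ (4 M)`
  have hJ : |(k : ℝ)| ≤ ((2 * S : ℕ) : ℝ) ^ (4 * M) := by
    have h1 : r / R₀ ≤ ((2 * S : ℕ) : ℝ) := by push_cast; linarith
    have h2 : r ≤ (r / R₀) ^ 2 := by
      rw [div_pow, le_div_iff₀ (by positivity)]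
      nlinarith
    calc |(k : ℝ)| ≤ Y ^ M := hkM
      _ = r ^ (2 * M) := by rw [← hr2, ← pow_mul]
      _ ≤ ((r / R₀) ^ 2) ^ (2 * M) := by gcongr
      _ = (r / R₀) ^ (4 * M) := by rw [← pow_mul]; congr 1; ring
      _ ≤ _ := by gcongr
  set b : ℝ := C * (((2 * S : ℕ) : ℝ) ^ (1 - η) + ((2 * S : ℕ) : ℝ) / |(k : ℝ)|) with hb
  have hb0 : 0 ≤ b := by positivity
  have hcell := cell_diff hT1 hY0 hS1 hSge hSle (k := k) hb0 (by
    intro z₀ u L hL hu hgood
    exact hline (2 * S) L z₀ u k (by omega) hL hu hgood hk7 hJ)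
  have hidx : ∀ z ∈ ball Y, |z.re / (S : ℤ)| ≤ A ∧ |z.im / (S : ℤ)| ≤ A := by
    intro z hz
    rw [mem_ball] at hz
    have h1 : r + S ≤ A * S := by
      have h2 : r ≤ 2 * R₀ * S := by
        have h3 : r / R₀ ≤ 2 * S := by linarith
        rw [div_le_iff₀ (by linarith)] at h3
        linarith
      nlinarith
    have h5 := nm_castR z
    refine ⟨abs_ediv_le hS1 (Real.abs_le_sqrt ?_) h1, abs_ediv_le hS1 (Real.abs_le_sqrt ?_) h1⟩
    · nlinarith [sq_nonneg (z.im : ℝ), hz.2]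
    · nlinarith [sq_nonneg (z.re : ℝ), hz.2]
  have hidx' : ∀ z ∈ ball (Y / 4), |z.re / (S : ℤ)| ≤ A ∧ |z.im / (S : ℤ)| ≤ A := by
    intro z hz
    apply hidx
    rw [mem_ball] at hz ⊢
    exact ⟨hz.1, by linarith [hz.2]⟩
  rw [sum_ball_eq hidx, sum_ball_eq hidx', ← sum_sub_distrib]
  refine (norm_sum_le _ _).trans ?_
  refine (sum_le_sum fun p _ => hcell p).trans ?_
  rw [sum_const, nsmul_eq_mul]
  have hcard : ((Icc (-(A : ℤ)) A) ×ˢ (Icc (-(A : ℤ)) A)).card = (2 * A + 1) ^ 2 := by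
    rw [card_product, Int.card_Icc, sq]
    congr 1 <;> omega
  rw [hcard]
  push_cast
  rw [mul_assoc ((2 * (A : ℝ) + 1) ^ 2)]
  apply mul_le_mul_of_nonneg_left _ (by positivity)
  rw [mul_assoc (2 : ℝ)]
  apply mul_le_mul_of_nonneg_left _ (by positivity)
  -- the bound for `b`
  have hb1 : b ≤ C * 2 * (r ^ (1 - η) + r / |(k : ℝ)|) := by
    rw [hb, mul_assoc C 2]
    apply mul_le_mul_of_nonneg_left _ hC.le
    push_cast
    rw [mul_add]
    apply add_le_add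
    · calc (2 * (S : ℝ)) ^ (1 - η) ≤ (2 * r) ^ (1 - η) := by
            apply Real.rpow_le_rpow (by positivity) (by linarith) (by linarith)
        _ = 2 ^ (1 - η) * r ^ (1 - η) := Real.mul_rpow (by norm_num) (by linarith)
        _ ≤ 2 * r ^ (1 - η) := by
            apply mul_le_mul_of_nonneg_right _ (by positivity)
            calc (2 : ℝ) ^ (1 - η) ≤ 2 ^ (1 : ℝ) := by
                  apply Real.rpow_le_rpow_of_exponent_le (by norm_num) (by linarith)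
              _ = 2 := Real.rpow_one 2
    · rw [mul_div_assoc]
      gcongr
  have h1 : (256 * (T : ℝ) * S + 1) ≤ 257 * T * r := by nlinarith
  calc (256 * (T : ℝ) * S + 1) * b ≤ (257 * T * r) * (C * 2 * (r ^ (1 - η) + r / |(k : ℝ)|)) := by
        gcongr
    _ = 257 * T * (C * 2) * (r * r ^ (1 - η) + r ^ 2 / |(k : ℝ)|) := by ring
    _ = _ := by
        have h2 : r * r ^ (1 - η) = Y ^ (1 - η / 2) := by
          rw [← Real.rpow_one_add' (by linarith) (by linarith), hr, Real.sqrt_eq_rpow,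
            ← Real.rpow_mul hY0.le]
          congr 1
          ring
        rw [h2, hr2]

/-- the annulus `Y/4 < nm z ≤ Y` -/
lemma annulus (M : ℕ) : ∃ η : ℝ, 0 < η ∧ η ≤ 1 / 2 ∧ ∃ C : ℝ, 0 < C ∧
    ∀ (Y : ℝ) (k : ℤ), 1 ≤ Y → k ≠ 0 → |(k : ℝ)| ≤ Y ^ M →
      ‖∑ z ∈ ball Y, ps k z - ∑ z ∈ ball (Y / 4), ps k z‖ ≤
        C * (Y ^ (1 - η) + Y / |(k : ℝ)|) := by
  obtain ⟨η, hη, hη1, C, hC, R, hR, h⟩ := annulus_large M
  refine ⟨η / 2, by positivity, by linarith, C + 18 * 7 + 18 * R ^ 2, by positivity, ?_⟩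
  intro Y k hY hk hkM
  have hk0 : 0 < |(k : ℝ)| := abs_pos.2 (by exact_mod_cast hk)
  have hY0 : 0 < Y := by linarith
  have hp1 : 0 ≤ Y ^ (1 - η / 2) := by positivity
  have hp1' : 1 ≤ Y ^ (1 - η / 2) := Real.one_le_rpow hY (by linarith)
  have hp2 : 0 ≤ Y / |(k : ℝ)| := by positivity
  have htriv : ‖∑ z ∈ ball Y, ps k z - ∑ z ∈ ball (Y / 4), ps k z‖ ≤ 18 * Y := by
    refine (norm_sub_le _ _).trans ?_
    have h1 := sum_ball_le hY0.le k
    have h2 := sum_ball_le (by positivity : 0 ≤ Y / 4) k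
    linarith
  by_cases hc1 : 7 ≤ |(k : ℝ)|
  · by_cases hc2 : R ≤ Real.sqrt Y
    · refine (h Y k hc2 hc1 hkM).trans ?_
      apply mul_le_mul_of_nonneg_right _ (by positivity)
      nlinarith
    · push Not at hc2
      have h3 : Y ≤ R ^ 2 := by
        have : Real.sqrt Y ^ 2 ≤ R ^ 2 := by gcongr
        rwa [Real.sq_sqrt hY0.le] at this
      refine htriv.trans ?_
      calc 18 * Y ≤ 18 * R ^ 2 * (Y ^ (1 - η / 2) + Y / |(k : ℝ)|) := by
            have h4 : (1 : ℝ) ≤ Y ^ (1 - η / 2) + Y / |(k : ℝ)| := by linarith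
            have h5 : (0 : ℝ) ≤ 18 * R ^ 2 := by positivity
            nlinarith
        _ ≤ _ := by
            apply mul_le_mul_of_nonneg_right _ (by positivity)
            linarith
  · push Not at hc1
    refine htriv.trans ?_
    have h4 : Y ≤ 7 * (Y / |(k : ℝ)|) := by
      rw [← mul_div_assoc, le_div_iff₀ hk0]
      nlinarith
    calc 18 * Y ≤ (18 * 7) * (Y ^ (1 - η / 2) + Y / |(k : ℝ)|) := by linarith
      _ ≤ _ := by
          apply mul_le_mul_of_nonneg_right _ (by positivity)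
          nlinarith

/-- **Angular sums, van der Corput part.** -/
theorem ang1 : S_ANG1 := by
  intro M
  obtain ⟨η, hη, hη1, C, hC, h⟩ := annulus (2 * M)
  refine ⟨η, hη, 2 * C + 9, by positivity, ?_⟩
  intro X k hX hk hkM
  have hk0 : 0 < |(k : ℝ)| := abs_pos.2 (by exact_mod_cast hk)
  have hX0 : 0 < X := by linarith
  have key : ∀ (n : ℕ) (Y : ℝ), 1 ≤ Y → Y ≤ X → Y ≤ 4 ^ n →
      ‖∑ z ∈ ball Y, ps k z‖ ≤ 9 * Real.sqrt X + 2 * C * (Y ^ (1 - η) + Y / |(k : ℝ)|) := by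
    intro n
    induction n with
    | zero =>
      intro Y hY _ h1
      have hY0 : 0 < Y := by linarith
      have h2 := sum_ball_le hY0.le k
      have h3 : 1 ≤ Real.sqrt X := by rw [Real.one_le_sqrt]; exact hX
      have h4 : 0 ≤ 2 * C * (Y ^ (1 - η) + Y / |(k : ℝ)|) := by positivity
      have h5 : Y ≤ 1 := by simpa using h1
      linarith
    | succ n ih =>
      intro Y hY hYX h1
      have hY0 : 0 < Y := by linarith
      have h4 : 0 ≤ 2 * C * (Y ^ (1 - η) + Y / |(k : ℝ)|) := by positivity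
      by_cases hc : Y ≤ Real.sqrt X
      · have h2 := sum_ball_le hY0.le k
        linarith
      · push Not at hc
        have hXY : X ≤ Y ^ 2 := by
          have h5 : Real.sqrt X ^ 2 ≤ Y ^ 2 := by gcongr
          rwa [Real.sq_sqrt hX0.le] at h5
        have hkY : |(k : ℝ)| ≤ Y ^ (2 * M) := by
          rw [pow_mul]
          exact hkM.trans (by gcongr)
        have h6 := h Y k hY hk hkY
        have h7 : ‖∑ z ∈ ball (Y / 4), ps k z‖ ≤ 9 * Real.sqrt X +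
            2 * C * ((Y / 4) ^ (1 - η) + (Y / 4) / |(k : ℝ)|) := by
          by_cases hc4 : 1 ≤ Y / 4
          · exact ih (Y / 4) hc4 (by linarith) (by rw [pow_succ] at h1; linarith)
          · push Not at hc4
            rw [ball_eq_empty hc4, sum_empty, norm_zero]
            positivity
        have h8 : (Y / 4) ^ (1 - η) ≤ Y ^ (1 - η) / 2 := by
          rw [Real.div_rpow hY0.le (by norm_num)]
          apply div_le_div_of_nonneg_left (by positivity) (by norm_num)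
          calc (2 : ℝ) = 4 ^ (1 / 2 : ℝ) := by
                rw [← Real.sqrt_eq_rpow, show (4 : ℝ) = 2 ^ 2 by norm_num,
                  Real.sqrt_sq (by norm_num)]
            _ ≤ 4 ^ (1 - η) := by
                apply Real.rpow_le_rpow_of_exponent_le (by norm_num) (by linarith)
        have h9 : ‖∑ z ∈ ball Y, ps k z‖ ≤
            ‖∑ z ∈ ball Y, ps k z - ∑ z ∈ ball (Y / 4), ps k z‖ +
              ‖∑ z ∈ ball (Y / 4), ps k z‖ := by
          have := norm_add_le (∑ z ∈ ball Y, ps k z - ∑ z ∈ ball (Y / 4), ps k z)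
            (∑ z ∈ ball (Y / 4), ps k z)
          rwa [sub_add_cancel] at this
        have h10 : (Y / 4) / |(k : ℝ)| ≤ (Y / |(k : ℝ)|) / 2 := by
          rw [div_right_comm]
          have : 0 ≤ Y / |(k : ℝ)| := by positivity
          linarith
        have h11 : 2 * C * ((Y / 4) ^ (1 - η) + (Y / 4) / |(k : ℝ)|) ≤
            2 * C * (Y ^ (1 - η) / 2 + (Y / |(k : ℝ)|) / 2) := by gcongr
        have h12 : 2 * C * (Y ^ (1 - η) / 2 + (Y / |(k : ℝ)|) / 2) +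
            C * (Y ^ (1 - η) + Y / |(k : ℝ)|) = 2 * C * (Y ^ (1 - η) + Y / |(k : ℝ)|) := by ring
        linarith
  obtain ⟨n, hn⟩ := pow_unbounded_of_one_lt X (by norm_num : (1 : ℝ) < 4)
  refine (key n X hX le_rfl hn.le).trans ?_
  have h1 : Real.sqrt X ≤ X ^ (1 - η) := by
    rw [Real.sqrt_eq_rpow]
    apply Real.rpow_le_rpow_of_exponent_le hX (by linarith)
  have h2 : 0 ≤ X / |(k : ℝ)| := by positivity
  calc 9 * Real.sqrt X + 2 * C * (X ^ (1 - η) + X / |(k : ℝ)|)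
      ≤ 9 * (X ^ (1 - η) + X / |(k : ℝ)|) + 2 * C * (X ^ (1 - η) + X / |(k : ℝ)|) := by
        gcongr
        linarith
    _ = _ := by ring

end Pool.Agent.W540.GM
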