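import Pool.Agent.W540.GM.AngD

/-!
GM-H: angular sums by van der Corput, part E: the sum over the disc.
-/

set_option autoImplicit false

namespace Pool.Agent.W540.GM

open Finset Complex
open Pool.Agent.W78.GM
open GaussianInt (toComplex)

lemma ball_eq_empty {Y : ℝ} (h : Y < 1) : ball Y = ∅ := by
  ext z
  rw [mem_ball]
  constructor
  · rintro ⟨h1, h2⟩
    have : (1 : ℝ) ≤ nm z := by exact_mod_cast h1
    linarith
  · intro h1
    exact absurd h1 (notMem_empty _)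

/-- the trivial bound -/
lemma card_ball_le {Y : ℝ} (hY : 0 ≤ Y) : ((ball Y).card : ℝ) ≤ 9 * Y := by
  rcases lt_or_ge Y 1 with h1 | h1
  · rw [ball_eq_empty h1, card_empty]
    push_cast
    linarith
  set n : ℕ := ⌊Real.sqrt Y⌋₊ with hn
  have hs1 : 1 ≤ Real.sqrt Y := by rw [Real.one_le_sqrt]; exact h1
  have hn1 : 1 ≤ n := by rw [hn]; exact Nat.le_floor (by exact_mod_cast hs1)
  have hnle : (n : ℝ) ≤ Real.sqrt Y := Nat.floor_le (by positivity)
  have hsub : ball Y ⊆ ((Icc (-(n : ℤ)) n) ×ˢ (Icc (-(n : ℤ)) n)).image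
      (fun p => (⟨p.1, p.2⟩ : GaussianInt)) := by
    intro z hz
    rw [mem_ball] at hz
    have key : ∀ x : ℤ, (x : ℝ) ^ 2 ≤ Y → x ∈ Icc (-(n : ℤ)) n := by
      intro x hx
      have h2 : |(x : ℝ)| ≤ Real.sqrt Y := Real.abs_le_sqrt hx
      have h3 : (x.natAbs : ℝ) ≤ Real.sqrt Y := by
        rw [Nat.cast_natAbs]
        push_cast
        exact h2
      have h4 : x.natAbs ≤ n := Nat.le_floor h3
      rw [mem_Icc]
      omega
    have h5 := nm_castR z
    rw [mem_image]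
    refine ⟨(z.re, z.im), ?_, rfl⟩
    rw [mem_product]
    refine ⟨key _ ?_, key _ ?_⟩
    · nlinarith [sq_nonneg (z.im : ℝ), hz.2]
    · nlinarith [sq_nonneg (z.re : ℝ), hz.2]
  have hcard : ((Icc (-(n : ℤ)) n)).card = 2 * n + 1 := by
    rw [Int.card_Icc]
    omega
  have h2 : (ball Y).card ≤ (2 * n + 1) ^ 2 := by
    refine (card_le_card hsub).trans (card_image_le.trans ?_)
    rw [card_product, hcard, sq]
  have h3 : ((ball Y).card : ℝ) ≤ (2 * n + 1) ^ 2 := by exact_mod_cast h2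
  have hn1' : (1 : ℝ) ≤ n := by exact_mod_cast hn1
  have h4 : (n : ℝ) ^ 2 ≤ Y := by
    calc (n : ℝ) ^ 2 ≤ (Real.sqrt Y) ^ 2 := by gcongr
      _ = Y := Real.sq_sqrt hY
  nlinarith

lemma sum_ball_le {Y : ℝ} (hY : 0 ≤ Y) (k : ℤ) : ‖∑ z ∈ ball Y, ps k z‖ ≤ 9 * Y := by
  refine (norm_sum_le _ _).trans ?_
  refine (sum_le_sum fun z _ => norm_ps_le z k).trans ?_
  rw [sum_const, nsmul_eq_mul, mul_one]
  exact card_ball_le hY

/-- the points of the ball in a cell -/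
noncomputable def cl (S : ℕ) (Y : ℝ) (p : ℤ × ℤ) : Finset GaussianInt :=
  (ball Y).filter (fun z => (z.re / (S : ℤ), z.im / (S : ℤ)) = p)

lemma cell_re {S : ℕ} (hS : 1 ≤ S) {x y a : ℤ} (hx : x / (S : ℤ) = a) (hy : y / (S : ℤ) = a) :
    |x - y| < S := by
  have hS0 : (0 : ℤ) < S := by exact_mod_cast hS
  have h1 := Int.emod_add_mul_ediv x S
  have h2 := Int.emod_add_mul_ediv y S
  have h3 := Int.emod_nonneg x hS0.ne'
  have h4 := Int.emod_nonneg y hS0.ne'
  have h5 := Int.emod_lt_of_pos x hS0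
  have h6 := Int.emod_lt_of_pos y hS0
  rw [hx] at h1
  rw [hy] at h2
  rw [abs_lt]
  constructor <;> linarith

lemma between {x d n j : ℤ} (hj0 : 0 ≤ j) (hjn : j ≤ n) {A B : ℤ} (h1 : A ≤ x) (h2 : x ≤ B)
    (h3 : A ≤ x + n * d) (h4 : x + n * d ≤ B) : A ≤ x + j * d ∧ x + j * d ≤ B := by
  rcases le_total 0 d with hd | hd
  · have h5 : 0 ≤ j * d := mul_nonneg hj0 hd
    have h6 : j * d ≤ n * d := mul_le_mul_of_nonneg_right hjn hd
    constructor <;> linarith
  · have h5 : j * d ≤ 0 := mul_nonpos_of_nonneg_of_nonpos hj0 hd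
    have h6 : n * d ≤ j * d := mul_le_mul_of_nonpos_right hjn hd
    constructor <;> linarith

lemma ediv_between {S : ℕ} (hS : 1 ≤ S) {x d a : ℤ} {n j : ℕ} (hjn : j ≤ n)
    (hx : x / (S : ℤ) = a) (hy : (x + n * d) / (S : ℤ) = a) : (x + j * d) / (S : ℤ) = a := by
  have hS0 : (0 : ℤ) < S := by exact_mod_cast hS
  have e : ∀ y : ℤ, y / (S : ℤ) = a ↔ (a * S ≤ y ∧ y ≤ a * S + S - 1) := by
    intro y
    constructor
    · intro h
      have h1 := Int.emod_add_mul_ediv y S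
      have h3 := Int.emod_nonneg y hS0.ne'
      have h5 := Int.emod_lt_of_pos y hS0
      rw [h] at h1
      constructor
      · linarith
      · have : y % S ≤ S - 1 := by omega
        linarith
    · rintro ⟨h1, h2⟩
      apply le_antisymm
      · apply Int.lt_add_one_iff.1
        apply Int.ediv_lt_of_lt_mul hS0
        linarith
      · exact (Int.le_ediv_iff_mul_le hS0).2 h1
  rw [e] at hx hy ⊢
  exact between (by positivity) (by exact_mod_cast hjn) hx.1 hx.2 hy.1 hy.2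

/-- convexity of the norm along a line -/
lemma nm_between {z u : GaussianInt} {n j : ℕ} (hjn : j ≤ n) {Y : ℝ} (h1 : (nm z : ℝ) ≤ Y)
    (h2 : (nm (z + (n : GaussianInt) * u) : ℝ) ≤ Y) :
    (nm (z + (j : GaussianInt) * u) : ℝ) ≤ Y := by
  rcases Nat.eq_zero_or_pos n with rfl | hn
  · have : j = 0 := by omega
    subst this
    exact h2
  have e : ∀ m : ℕ, (nm (z + (m : GaussianInt) * u) : ℝ) =
      nm z + 2 * m * ((z.re : ℝ) * u.re + z.im * u.im) + (m : ℝ) ^ 2 * nm u := by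
    intro m
    rw [nm_castR, nm_castR, nm_castR, re_add_natMul, im_add_natMul]
    push_cast
    ring
  have hn0 : (0 : ℝ) < n := by exact_mod_cast hn
  have hj0 : (0 : ℝ) ≤ j := Nat.cast_nonneg j
  have hjn' : (j : ℝ) ≤ n := by exact_mod_cast hjn
  have hu0 : (0 : ℝ) ≤ nm u := Nat.cast_nonneg _
  rw [e] at h2 ⊢
  set q := (z.re : ℝ) * u.re + z.im * u.im
  have key : (n : ℝ) * (nm z + 2 * j * q + (j : ℝ) ^ 2 * nm u) ≤ n * Y := by
    have h3 : (n : ℝ) * (nm z + 2 * j * q + (j : ℝ) ^ 2 * nm u) =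
        (n - j) * nm z + j * (nm z + 2 * n * q + (n : ℝ) ^ 2 * nm u) -
          n * (j * (n - j)) * nm u := by ring
    rw [h3]
    have h4 : 0 ≤ (n : ℝ) * (j * (n - j)) * nm u :=
      mul_nonneg (mul_nonneg hn0.le (mul_nonneg hj0 (by linarith))) hu0
    have h5 : ((n : ℝ) - j) * nm z ≤ (n - j) * Y := mul_le_mul_of_nonneg_left h1 (by linarith)
    have h6 : (j : ℝ) * (nm z + 2 * n * q + (n : ℝ) ^ 2 * nm u) ≤ j * Y :=
      mul_le_mul_of_nonneg_left h2 hj0
    linarith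
  exact le_of_mul_le_mul_left key hn0

/-- the set of points of the ball in a cell away from the origin is convex -/
lemma lconv_cl {S : ℕ} (hS : 1 ≤ S) (Y : ℝ) (p : ℤ × ℤ)
    (h0 : ¬ ((0 : ℤ) / (S : ℤ), (0 : ℤ) / (S : ℤ)) = p) : LConv (cl S Y p) := by
  intro z hz u n j hn hjn
  unfold cl at hz hn ⊢
  rw [mem_filter, mem_ball] at hz hn ⊢
  obtain ⟨⟨hz1, hz2⟩, hz3⟩ := hz
  obtain ⟨⟨hn1, hn2⟩, hn3⟩ := hn
  have hz3' := Prod.ext_iff.1 hz3
  have hn3' := Prod.ext_iff.1 hn3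
  simp only at hz3' hn3'
  have h1 : ((z + (j : GaussianInt) * u).re / (S : ℤ), (z + (j : GaussianInt) * u).im / (S : ℤ)) =
      p := by
    apply Prod.ext
    · simp only
      rw [re_add_natMul]
      have h2 := hn3'.1
      rw [re_add_natMul] at h2
      exact ediv_between hS hjn hz3'.1 h2
    · simp only
      rw [im_add_natMul]
      have h2 := hn3'.2
      rw [im_add_natMul] at h2
      exact ediv_between hS hjn hz3'.2 h2
  refine ⟨⟨?_, nm_between hjn hz2 hn2⟩, h1⟩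
  rw [one_le_nm]
  intro h3
  rw [h3] at h1
  exact h0 h1

/-- the bound for one cell -/
lemma cell_diff {T : ℕ} (hT : 1 ≤ T) {Y : ℝ} (hY : 0 < Y) {S : ℕ} (hS : 1 ≤ S)
    (hS1 : Real.sqrt Y / (40960 * T ^ 2) / 2 ≤ (S : ℝ))
    (hS2 : (S : ℝ) ≤ Real.sqrt Y / (40960 * T ^ 2)) {k : ℤ} {b : ℝ} (hb : 0 ≤ b)
    (hline : ∀ (z₀ u : GaussianInt) (L : ℕ), L ≤ 2 * S → u ≠ 0 →
      Good T (1 / (40960 * T ^ 2 * 32)) (6 / (32 * T + 2)) ((2 * S : ℕ) : ℝ) (toComplex z₀)
        (toComplex u) → ‖∑ n ∈ range L, ps k (z₀ + (n : GaussianInt) * u)‖ ≤ b) (p : ℤ × ℤ) :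
    ‖∑ z ∈ cl S Y p, ps k z - ∑ z ∈ cl S (Y / 4) p, ps k z‖ ≤ 2 * ((256 * T * S + 1 : ℕ) * b) := by
  have hT' : (1 : ℝ) ≤ T := by exact_mod_cast hT
  have hr0 : 0 < Real.sqrt Y := Real.sqrt_pos.2 hY
  have hr2 : Real.sqrt Y ^ 2 = Y := Real.sq_sqrt hY.le
  by_cases hcase : ∃ zQ : GaussianInt, (zQ.re / (S : ℤ), zQ.im / (S : ℤ)) = p ∧
      Y / 4 < (nm zQ : ℝ) ∧ (nm zQ : ℝ) ≤ 4 * Y
  · obtain ⟨zQ, hQp, hQ1, hQ2⟩ := hcase
    have hQn1 : Real.sqrt Y / 2 ≤ ‖toComplex zQ‖ := by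
      rw [norm_toComplex]
      apply Real.le_sqrt_of_sq_le
      rw [div_pow, hr2]
      linarith
    have hQn2 : ‖toComplex zQ‖ ≤ 2 * Real.sqrt Y := by
      rw [norm_toComplex]
      rw [Real.sqrt_le_left (by positivity), mul_pow, hr2]
      linarith
    obtain ⟨u, hu, hun, hgood⟩ := cell_good T hT (Real.sqrt Y) S hS hS1 hS2 zQ hQn1 hQn2
    have hQp' := Prod.ext_iff.1 hQp
    simp only at hQp'
    -- the cell does not contain the origin
    have h0 : ¬ ((0 : ℤ) / (S : ℤ), (0 : ℤ) / (S : ℤ)) = p := by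
      intro h
      have h' := Prod.ext_iff.1 h
      simp only at h'
      have h1 := cell_re hS hQp'.1 h'.1
      have h2 := cell_re hS hQp'.2 h'.2
      rw [sub_zero] at h1 h2
      have h3 : (nm zQ : ℝ) ≤ 2 * (S : ℝ) ^ 2 := by
        rw [nm_castR]
        have h4 : |(zQ.re : ℝ)| ≤ S := by exact_mod_cast h1.le
        have h5 : |(zQ.im : ℝ)| ≤ S := by exact_mod_cast h2.le
        have h6 := sq_le_sq' (abs_le.1 h4).1 (abs_le.1 h4).2
        have h7 := sq_le_sq' (abs_le.1 h5).1 (abs_le.1 h5).2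
        linarith
      have h8 : (S : ℝ) * 4 ≤ Real.sqrt Y := by
        rw [le_div_iff₀ (by positivity)] at hS2
        have h9 : (4 : ℝ) ≤ 40960 * T ^ 2 := by nlinarith
        have h10 : (0 : ℝ) ≤ S := Nat.cast_nonneg S
        nlinarith
      have h9 : ((S : ℝ) * 4) ^ 2 ≤ Y := by
        rw [← hr2]
        have h10 : (0 : ℝ) ≤ S := Nat.cast_nonneg S
        gcongr
      nlinarith
    have key : ∀ Y' : ℝ, ‖∑ z ∈ cl S Y' p, ps k z‖ ≤ (256 * T * S + 1 : ℕ) * b := by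
      intro Y'
      have hin : ∀ z ∈ cl S Y' p, |z.re - zQ.re| < S ∧ |z.im - zQ.im| < S := by
        intro z hz
        have h1 := Prod.ext_iff.1 (mem_filter.1 hz).2
        simp only at h1
        exact ⟨cell_re hS h1.1 hQp'.1, cell_re hS h1.2 hQp'.2⟩
      refine cell_bound hu hun (lconv_cl hS Y' p h0) hin hb ?_
      intro z₀ hz₀ L hL
      obtain ⟨h1, h2⟩ := hin z₀ hz₀
      exact hline z₀ u L hL (prim_ne_zero hu) (hgood z₀ h1 h2)
    refine (norm_sub_le _ _).trans ?_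
    have h1 := key Y
    have h2 := key (Y / 4)
    linarith
  · push Not at hcase
    have heq : cl S Y p = cl S (Y / 4) p := by
      ext z
      unfold cl
      rw [mem_filter, mem_filter, mem_ball, mem_ball]
      constructor
      · rintro ⟨⟨h1, h2⟩, h3⟩
        refine ⟨⟨h1, ?_⟩, h3⟩
        by_contra hcon
        push Not at hcon
        have := hcase z h3 hcon
        linarith
      · rintro ⟨⟨h1, h2⟩, h3⟩
        exact ⟨⟨h1, by linarith⟩, h3⟩
    rw [heq, sub_self, norm_zero]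
    positivity

end Pool.Agent.W540.GM
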