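import Pool.Agent.W78.GM.Basic
import Pool.Agent.H221R2.FB_VdcGen

/-!
GM-H: angular sums by van der Corput, part A: the phase on a line.
-/

set_option autoImplicit false

namespace Pool.Agent.W540.GM

open Finset Complex

/-- powers of `1 + i τ` for small `τ` -/
lemma im_pow_bounds (T : ℕ) (τ : ℝ) (h0 : 0 < τ) (h1 : T * τ ≤ 1 / 2) : ∀ m : ℕ, 1 ≤ m → m ≤ T →
    (1 - (m : ℝ) ^ 2 * τ ^ 2 ≤ ((1 + τ * I : ℂ) ^ m).re ∧ ((1 + τ * I : ℂ) ^ m).re ≤ 1) ∧
    τ ≤ ((1 + τ * I : ℂ) ^ m).im ∧ ((1 + τ * I : ℂ) ^ m).im ≤ m * τ := by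
  intro m hm
  induction m, hm using Nat.le_induction with
  | base =>
    intro _
    have e1 : ((1 + τ * I : ℂ) ^ 1).re = 1 := by simp
    have e2 : ((1 + τ * I : ℂ) ^ 1).im = τ := by simp
    rw [e1, e2]
    have : 0 ≤ τ ^ 2 := by positivity
    push_cast
    refine ⟨⟨by linarith, le_rfl⟩, le_rfl, by linarith⟩
  | succ m hm ih =>
    intro hT
    obtain ⟨⟨h2, h3⟩, h4, h5⟩ := ih (by omega)
    rw [pow_succ (1 + τ * I : ℂ) m]
    simp only [mul_re, mul_im, add_re, add_im, one_re, one_im, ofReal_re, ofReal_im, I_re, I_im]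
    set a := ((1 + τ * I : ℂ) ^ m).re with ha
    set b := ((1 + τ * I : ℂ) ^ m).im with hb
    have hmT : (m : ℝ) * τ ≤ 1 / 2 := by
      have : (m : ℝ) ≤ T := by exact_mod_cast (by omega : m ≤ T)
      calc (m : ℝ) * τ ≤ T * τ := by gcongr
        _ ≤ _ := h1
    have hm0 : (0 : ℝ) ≤ m := Nat.cast_nonneg m
    have hsq : (m : ℝ) ^ 2 * τ ^ 2 ≤ 1 / 4 := by
      have h6 : 0 ≤ (m : ℝ) * τ := by positivity
      nlinarith
    have ha0 : 0 ≤ a := by linarith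
    have hbτ : b * τ ≤ m * τ ^ 2 := by nlinarith
    have hb0 : 0 ≤ b := by linarith
    have hbτ0 : 0 ≤ b * τ := by positivity
    have haτ : a * τ ≤ τ := by nlinarith
    have haτ0 : 0 ≤ a * τ := by positivity
    have hτ2 : 0 < τ ^ 2 := by positivity
    push_cast
    refine ⟨⟨?_, ?_⟩, ?_, ?_⟩
    · have e1 : ((m : ℝ) + 1) ^ 2 * τ ^ 2 = (m : ℝ) ^ 2 * τ ^ 2 + m * τ ^ 2 + (m + 1) * τ ^ 2 := by
        ring
      have e2 : 0 ≤ ((m : ℝ) + 1) * τ ^ 2 := by positivity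
      linarith
    · linarith
    · linarith
    · linarith

/-- the phase `Im log (w + (x - J))` and its derivatives -/
noncomputable def phi (w : ℂ) (J : ℝ) (m : ℕ) (x : ℝ) : ℝ :=
  match m with
  | 0 => (Complex.log (w + ((x - J : ℝ) : ℂ))).im
  | m + 1 => ((-1 : ℂ) ^ m * (m.factorial : ℂ) * ((w + ((x - J : ℝ) : ℂ))⁻¹) ^ (m + 1)).im

lemma hasDerivAt_im {g : ℝ → ℂ} {g' : ℂ} {x : ℝ} (h : HasDerivAt g g' x) :
    HasDerivAt (fun t => (g t).im) g'.im x := by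
  have := Complex.imCLM.hasFDerivAt.comp_hasDerivAt x h
  exact this

lemma hasDerivAt_phi (w : ℂ) (J : ℝ) (m : ℕ) (x : ℝ)
    (h : (w + ((x - J : ℝ) : ℂ)) ∈ Complex.slitPlane) :
    HasDerivAt (phi w J m) (phi w J (m + 1) x) x := by
  have hd : HasDerivAt (fun y : ℝ => w + ((y - J : ℝ) : ℂ)) 1 x := by
    have h1 : HasDerivAt (fun y : ℝ => ((y - J : ℝ) : ℂ)) ((1 : ℝ) : ℂ) x :=
      ((hasDerivAt_id x).sub_const J).ofReal_comp
    have := h1.const_add w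
    simpa using this
  have hne : (w + ((x - J : ℝ) : ℂ)) ≠ 0 := Complex.slitPlane_ne_zero h
  cases m with
  | zero =>
    have h1 := hd.clog_real h
    have h2 := hasDerivAt_im h1
    have e : phi w J 1 x = ((1 : ℂ) / (w + ((x - J : ℝ) : ℂ))).im := by
      simp [phi]
    rw [e]
    exact h2
  | succ m =>
    have h1 := ((hd.fun_inv hne).fun_pow (m + 1)).const_mul ((-1 : ℂ) ^ m * (m.factorial : ℂ))
    have h2 := hasDerivAt_im h1
    have e : phi w J (m + 1 + 1) x = ((-1 : ℂ) ^ m * (m.factorial : ℂ) *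
        (((m + 1 : ℕ) : ℂ) * ((w + ((x - J : ℝ) : ℂ))⁻¹) ^ (m + 1 - 1) *
          (-1 / (w + ((x - J : ℝ) : ℂ)) ^ 2))).im := by
      simp only [phi]
      congr 1
      rw [Nat.factorial_succ, Nat.add_sub_cancel, pow_succ (-1 : ℂ) m]
      push_cast
      rw [neg_div, one_div, ← inv_pow]
      ring
    rw [e]
    exact h2

end Pool.Agent.W540.GM
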