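import Pool.Agent.W540.GM.AngA

/-!
GM-H: angular sums by van der Corput, part B: the sum over a block on a line.
-/

set_option autoImplicit false

namespace Pool.Agent.W540.GM

open Finset Complex
open Pool.Agent.W78.GM
open Pool.Agent.H469R2.NK (e norm_e)
open GaussianInt (toComplex)

/-- the geometric hypothesis on the line `z₀ + t u`, `0 ≤ t ≤ 2 J` -/
def Good (T : ℕ) (x₀ τ₀ J : ℝ) (z₀ u : ℂ) : Prop :=
  ∀ t : ℝ, 0 ≤ t → t ≤ 2 * J → ∃ ξ τ : ℝ, (J : ℂ) * u / (z₀ + t * u) = ξ * (1 + τ * I) ∧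
    x₀ ≤ ξ ∧ ξ ≤ 1 ∧ τ₀ ≤ τ ∧ T * τ ≤ 1 / 2

lemma unit_zpow_eq {w : ℂ} (hw : w ≠ 0) (k : ℤ) :
    (w / ((‖w‖ : ℝ) : ℂ)) ^ k = Complex.exp (((k * w.arg : ℝ) : ℂ) * I) := by
  have h := Complex.norm_mul_exp_arg_mul_I w
  have h0 : ((‖w‖ : ℝ) : ℂ) ≠ 0 := by simpa using hw
  have h1 : w / ((‖w‖ : ℝ) : ℂ) = Complex.exp ((w.arg : ℂ) * I) := by
    rw [div_eq_iff h0, mul_comm]
    exact h.symm
  rw [h1, ← Complex.exp_int_mul]
  congr 1
  push_cast
  ring

lemma ps_line {u z₀ : GaussianInt} (hu : u ≠ 0) (n : ℕ)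
    (hn : (toComplex z₀ / toComplex u + n : ℂ) ≠ 0) (k : ℤ) :
    ps k (z₀ + (n : GaussianInt) * u) =
      ps k u * e (((k : ℝ) / (2 * Real.pi)) * (toComplex z₀ / toComplex u + n : ℂ).arg) := by
  have hu' : toComplex u ≠ 0 := toComplex_ne_zero hu
  have h1 : toComplex (z₀ + (n : GaussianInt) * u) =
      toComplex u * (toComplex z₀ / toComplex u + n) := by
    rw [map_add, map_mul, map_natCast]
    field_simp
  unfold ps
  rw [h1, norm_mul]
  have h2 : (toComplex u * (toComplex z₀ / toComplex u + n) /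
      ((‖toComplex u‖ * ‖toComplex z₀ / toComplex u + n‖ : ℝ) : ℂ)) =
      (toComplex u / ((‖toComplex u‖ : ℝ) : ℂ)) *
      ((toComplex z₀ / toComplex u + n) / ((‖toComplex z₀ / toComplex u + n‖ : ℝ) : ℂ)) := by
    push_cast
    rw [mul_div_mul_comm]
  rw [h2, mul_zpow, unit_zpow_eq hn]
  congr 1
  unfold e
  congr 2
  have hpi : (Real.pi : ℝ) ≠ 0 := Real.pi_ne_zero
  push_cast
  field_simp

lemma line_bound (M : ℕ) {x₀ τ₀ : ℝ} (hx₀ : 0 < x₀) (hx₁ : x₀ ≤ 1) (hτ₀ : 0 < τ₀) :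
    ∃ η : ℝ, 0 < η ∧ η ≤ 1 ∧ ∃ C : ℝ, 0 < C ∧ ∀ (J L : ℕ) (z₀ u : GaussianInt) (k : ℤ),
      1 ≤ J → L ≤ J → u ≠ 0 → Good (M + 4) x₀ τ₀ J (toComplex z₀) (toComplex u) →
      7 ≤ |(k : ℝ)| → |(k : ℝ)| ≤ (J : ℝ) ^ M →
      ‖∑ n ∈ range L, ps k (z₀ + (n : GaussianInt) * u)‖ ≤
        C * ((J : ℝ) ^ (1 - η) + J / |(k : ℝ)|) := by
  obtain ⟨η, hη, hη1, C, hC, hmain⟩ := Pool.Agent.H221R2.FB.vdc_gen M (x₀ ^ (M + 4) * τ₀)
    ((M + 4).factorial : ℝ) (by positivity)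
  refine ⟨η, hη, hη1, C * 7, by positivity, ?_⟩
  intro J L z₀ u k hJ hLJ hu hgood hk7 hkM
  have hJ0 : (0 : ℝ) < J := by exact_mod_cast hJ
  have hJC : (J : ℂ) ≠ 0 := by exact_mod_cast hJ0.ne'
  have hu' : toComplex u ≠ 0 := toComplex_ne_zero hu
  set w : ℂ := toComplex z₀ / toComplex u with hw
  have hpi := Real.pi_pos
  -- the inverse of `w + t`
  have hinv : ∀ x : ℝ, x ∈ Set.Icc (J : ℝ) (3 * J) → ∃ ξ τ : ℝ,
      (w + ((x - J : ℝ) : ℂ))⁻¹ = (ξ * (1 + τ * I)) / J ∧ x₀ ≤ ξ ∧ ξ ≤ 1 ∧ τ₀ ≤ τ ∧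
        ((M + 4 : ℕ) : ℝ) * τ ≤ 1 / 2 := by
    intro x hx
    obtain ⟨ξ, τ, h1, h2, h3, h4, h5⟩ := hgood (x - J) (by linarith [hx.1]) (by linarith [hx.2])
    refine ⟨ξ, τ, ?_, h2, h3, h4, h5⟩
    rw [← h1, hw]
    have h6 : toComplex z₀ / toComplex u + ((x - J : ℝ) : ℂ) =
        (toComplex z₀ + ((x - J : ℝ) : ℂ) * toComplex u) / toComplex u := by
      field_simp
    rw [h6, inv_div]
    push_cast
    field_simp
  have hslit : ∀ x : ℝ, x ∈ Set.Icc (J : ℝ) (3 * J) →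
      (w + ((x - J : ℝ) : ℂ)) ∈ Complex.slitPlane := by
    intro x hx
    obtain ⟨ξ, τ, h1, h2, h3, h4, h5⟩ := hinv x hx
    left
    have h6 : 0 < ((w + ((x - J : ℝ) : ℂ))⁻¹).re := by
      rw [h1]
      have : (((ξ : ℂ) * (1 + τ * I)) / J).re = ξ / J := by
        rw [show ((J : ℂ)) = ((J : ℝ) : ℂ) by push_cast; rfl, Complex.div_ofReal_re]
        simp
      rw [this]
      exact div_pos (by linarith) hJ0
    rw [Complex.inv_re] at h6
    have h7 : (0 : ℝ) ≤ normSq (w + ((x - J : ℝ) : ℂ)) := normSq_nonneg _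
    by_contra hcon
    push Not at hcon
    have := div_nonpos_of_nonpos_of_nonneg hcon h7
    linarith
  have hmem : ∀ n ∈ range L, ((J : ℝ) + n) ∈ Set.Icc (J : ℝ) (3 * J) := by
    intro n hn
    have h1 : (n : ℝ) ≤ J := by exact_mod_cast ((mem_range.1 hn).le.trans hLJ)
    have h2 : (0 : ℝ) ≤ n := Nat.cast_nonneg n
    constructor <;> linarith
  -- rewrite the sum
  have hsum : ∑ n ∈ range L, ps k (z₀ + (n : GaussianInt) * u) =
      ps k u * ∑ n ∈ range L, e (((k : ℝ) / (2 * Real.pi)) * phi w J 0 ((J : ℝ) + n)) := by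
    rw [mul_sum]
    refine sum_congr rfl fun n hn => ?_
    have h1 : (w + (((J : ℝ) + n - J : ℝ) : ℂ)) = w + n := by
      push_cast; ring
    have h2 : w + (n : ℂ) ≠ 0 := by
      rw [← h1]
      exact Complex.slitPlane_ne_zero (hslit _ (hmem n hn))
    rw [ps_line hu n h2]
    congr 3
    simp only [phi]
    rw [h1, Complex.log_im]
  rw [hsum, norm_mul]
  have h7 : (2 * Real.pi) ≤ 7 := by linarith [Real.pi_lt_d2]
  have hξabs : |(k : ℝ) / (2 * Real.pi)| = |(k : ℝ)| / (2 * Real.pi) := by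
    rw [abs_div, abs_of_pos (by positivity : 0 < 2 * Real.pi)]
  have key := hmain J L J ((k : ℝ) / (2 * Real.pi)) (phi w J) hJ le_rfl hLJ
    (by have : (L : ℝ) ≤ J := by exact_mod_cast hLJ
        linarith)
    (fun m _ x hx => hasDerivAt_phi w J m x (hslit x hx)) (by
      intro m hm1 hmT x hx
      obtain ⟨ξ, τ, h1, h2, h3, h4, h5⟩ := hinv x hx
      obtain ⟨m, rfl⟩ : ∃ m', m = m' + 1 := ⟨m - 1, by omega⟩
      have hval : (-1 : ℝ) ^ (m + 1 + 1) * phi w J (m + 1) x * (J : ℝ) ^ (m + 1) =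
          (m.factorial : ℝ) * ξ ^ (m + 1) * ((1 + τ * I : ℂ) ^ (m + 1)).im := by
        have h8 : phi w J (m + 1) x =
            (-1 : ℝ) ^ m * (m.factorial : ℝ) * (ξ / J) ^ (m + 1) *
              ((1 + τ * I : ℂ) ^ (m + 1)).im := by
          simp only [phi]
          rw [h1]
          have h9 : ((-1 : ℂ) ^ m * (m.factorial : ℂ) *
              ((ξ * (1 + τ * I)) / (J : ℂ)) ^ (m + 1)) =
              (((-1 : ℝ) ^ m * (m.factorial : ℝ) * (ξ / J) ^ (m + 1) : ℝ) : ℂ) *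
              (1 + τ * I : ℂ) ^ (m + 1) := by
            push_cast
            rw [div_pow, mul_pow, div_pow]
            ring
          rw [h9]
          exact Complex.im_ofReal_mul _ _
        rw [h8]
        have hsgn : (-1 : ℝ) ^ (m + 1 + 1) * (-1 : ℝ) ^ m = 1 := by
          rw [← pow_add, show m + 1 + 1 + m = 2 * (m + 1) by ring, pow_mul]
          norm_num
        have h10 : (ξ / J) ^ (m + 1) * (J : ℝ) ^ (m + 1) = ξ ^ (m + 1) := by
          rw [← mul_pow, div_mul_cancel₀ _ hJ0.ne']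
        calc (-1 : ℝ) ^ (m + 1 + 1) * ((-1 : ℝ) ^ m * (m.factorial : ℝ) * (ξ / J) ^ (m + 1) *
              ((1 + τ * I : ℂ) ^ (m + 1)).im) * (J : ℝ) ^ (m + 1)
            = ((-1 : ℝ) ^ (m + 1 + 1) * (-1 : ℝ) ^ m) * (m.factorial : ℝ) *
              ((ξ / J) ^ (m + 1) * (J : ℝ) ^ (m + 1)) * ((1 + τ * I : ℂ) ^ (m + 1)).im := by ring
          _ = _ := by rw [hsgn, h10, one_mul]
      rw [hval]
      have hτ : 0 < τ := by linarith
      have hξ : 0 < ξ := by linarith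
      obtain ⟨_, hb1, hb2⟩ := im_pow_bounds (M + 4) τ hτ h5 (m + 1) (by omega) hmT
      have hf1 : (1 : ℝ) ≤ m.factorial := by exact_mod_cast Nat.factorial_pos m
      constructor
      · have h11 : x₀ ^ (M + 4) ≤ ξ ^ (m + 1) :=
          (pow_le_pow_of_le_one hx₀.le hx₁ hmT).trans (pow_le_pow_left₀ hx₀.le h2 _)
        calc x₀ ^ (M + 4) * τ₀ ≤ ξ ^ (m + 1) * τ := by gcongr
          _ ≤ (m.factorial : ℝ) * ξ ^ (m + 1) * τ := by
              have : 0 ≤ ξ ^ (m + 1) * τ := by positivity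
              nlinarith
          _ ≤ _ := by gcongr
      · have h12 : ((m + 1 : ℕ) : ℝ) * τ ≤ 1 := by
          have : ((m + 1 : ℕ) : ℝ) ≤ ((M + 4 : ℕ) : ℝ) := by exact_mod_cast hmT
          nlinarith
        have h13 : (m.factorial : ℝ) ≤ ((M + 4).factorial : ℝ) := by
          exact_mod_cast Nat.factorial_le (by omega)
        have h14 : ξ ^ (m + 1) ≤ 1 := pow_le_one₀ hξ.le h3
        calc (m.factorial : ℝ) * ξ ^ (m + 1) * ((1 + τ * I : ℂ) ^ (m + 1)).im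
            ≤ (m.factorial : ℝ) * ξ ^ (m + 1) * 1 := by
              gcongr
              exact hb2.trans h12
          _ ≤ (m.factorial : ℝ) * 1 * 1 := by gcongr
          _ ≤ _ := by linarith)
    (by rw [hξabs, le_div_iff₀ (by positivity)]; linarith)
    (by
      rw [hξabs]
      refine le_trans ?_ hkM
      apply div_le_self (abs_nonneg _)
      linarith [Real.pi_gt_three])
  refine (mul_le_mul (norm_ps_le u k) key (norm_nonneg _) zero_le_one).trans ?_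
  rw [one_mul, hξabs]
  have hk0 : 0 < |(k : ℝ)| := by linarith
  have h15 : (J : ℝ) / (|(k : ℝ)| / (2 * Real.pi)) ≤ 7 * (J / |(k : ℝ)|) := by
    rw [div_div_eq_mul_div, ← mul_div_assoc]
    apply div_le_div_of_nonneg_right _ hk0.le
    nlinarith
  have h16 : (0 : ℝ) ≤ (J : ℝ) ^ (1 - η) := by positivity
  calc C * ((J : ℝ) ^ (1 - η) + J / (|(k : ℝ)| / (2 * Real.pi)))
      ≤ C * (7 * (J : ℝ) ^ (1 - η) + 7 * (J / |(k : ℝ)|)) := by
        gcongr
        linarith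
    _ = _ := by ring

end Pool.Agent.W540.GM
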