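import Pool.Agent.W540.GM.AngB

/-!
GM-H: angular sums by van der Corput, part C: the choice of the direction of the lines in a cell.
-/

set_option autoImplicit false

namespace Pool.Agent.W540.GM

open Finset Complex
open Pool.Agent.W78.GM
open GaussianInt (toComplex)

/-- rounding -/
lemma exists_round (z : ℂ) : ∃ u : GaussianInt, ‖toComplex u - z‖ ≤ 1 := by
  refine ⟨⟨round z.re, round z.im⟩, ?_⟩
  refine (Complex.norm_le_abs_re_add_abs_im _).trans ?_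
  have h1 : (toComplex ⟨round z.re, round z.im⟩ - z).re = (round z.re : ℝ) - z.re := by
    rw [Complex.sub_re, toC_re]
  have h2 : (toComplex ⟨round z.re, round z.im⟩ - z).im = (round z.im : ℝ) - z.im := by
    rw [Complex.sub_im, toC_im]
  rw [h1, h2, abs_sub_comm, abs_sub_comm (round z.im : ℝ)]
  have h3 := abs_sub_round z.re
  have h4 := abs_sub_round z.im
  linarith

lemma one_le_norm {u : GaussianInt} (hu : u ≠ 0) : 1 ≤ ‖toComplex u‖ := by
  rw [norm_toComplex]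
  rw [Real.one_le_sqrt]
  exact_mod_cast one_le_nm.2 hu

/-- the primitive part -/
lemma exists_prim {v : GaussianInt} (hv : v ≠ 0) : ∃ (g : ℕ) (u : GaussianInt), 0 < g ∧ prim u ∧
    v = (g : GaussianInt) * u ∧ (g : ℝ) ≤ ‖toComplex v‖ := by
  have hg : 0 < Int.gcd v.re v.im := by
    rw [Nat.pos_iff_ne_zero, ne_eq, Int.gcd_eq_zero_iff]
    rintro ⟨h1, h2⟩
    exact hv (Zsqrtd.ext h1 h2)
  obtain ⟨a, b, hab, h1, h2⟩ := Int.exists_gcd_one hg
  have hvu : v = ((Int.gcd v.re v.im : ℕ) : GaussianInt) * (⟨a, b⟩ : GaussianInt) := by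
    apply Zsqrtd.ext
    · rw [Zsqrtd.re_mul]
      simp
      linarith [mul_comm a (Int.gcd v.re v.im : ℤ)]
    · rw [Zsqrtd.im_mul]
      simp
      linarith [mul_comm b (Int.gcd v.re v.im : ℤ)]
  have hprim : prim (⟨a, b⟩ : GaussianInt) := by
    unfold prim
    exact hab
  refine ⟨Int.gcd v.re v.im, ⟨a, b⟩, hg, hprim, hvu, ?_⟩
  have h3 : ‖toComplex v‖ = (Int.gcd v.re v.im : ℝ) * ‖toComplex (⟨a, b⟩ : GaussianInt)‖ := by
    conv_lhs => rw [hvu]
    rw [map_mul, norm_mul, map_natCast, Complex.norm_natCast]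
  rw [h3]
  have h4 := one_le_norm (prim_ne_zero hprim)
  have h5 : (0 : ℝ) ≤ (Int.gcd v.re v.im : ℝ) := Nat.cast_nonneg _
  nlinarith

/-- the direction of the lines near `zQ` -/
lemma exists_dir (T : ℕ) (hT : 1 ≤ T) (zQ : ℂ) (hQ : zQ ≠ 0) : ∃ u : GaussianInt, prim u ∧
    ‖toComplex u‖ ≤ 64 * T ∧ ∀ Z : ℂ, ‖Z - zQ‖ ≤ ‖zQ‖ / (64 * T) → ∃ x τ : ℝ,
      toComplex u / Z = x * (1 + τ * I) ∧ 1 / (16 * ‖zQ‖) ≤ x ∧ x ≤ 256 * T / ‖zQ‖ ∧
      6 / (32 * T + 2) ≤ τ ∧ T * τ ≤ 1 / 2 := by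
  have hT' : (1 : ℝ) ≤ T := by exact_mod_cast hT
  set B : ℝ := 32 * T with hB
  have hB32 : 32 ≤ B := by rw [hB]; linarith
  have hQ0 : 0 < ‖zQ‖ := norm_pos_iff.2 hQ
  set d : ℂ := zQ / ((‖zQ‖ : ℝ) : ℂ) with hd
  have hQC : ((‖zQ‖ : ℝ) : ℂ) ≠ 0 := by exact_mod_cast hQ0.ne'
  have hdn : ‖d‖ = 1 := by
    rw [hd, norm_div, Complex.norm_real, norm_norm, div_self hQ0.ne']
  have hdd : d * (starRingEnd ℂ) d = 1 := by
    rw [Complex.mul_conj, Complex.normSq_eq_norm_sq, hdn]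
    norm_num
  set v : ℂ := (B : ℂ) * d * (1 + ((1 / (4 * T) : ℝ) : ℂ) * I) with hv
  obtain ⟨u', hu'⟩ := exists_round v
  -- the norm of `u'`
  have hs1 : ‖(1 + ((1 / (4 * T) : ℝ) : ℂ) * I : ℂ)‖ ≤ 1 + 1 / (4 * T) := by
    refine (norm_add_le _ _).trans ?_
    rw [norm_one, norm_mul, Complex.norm_real, Complex.norm_I, mul_one, Real.norm_eq_abs,
      abs_of_pos (by positivity)]
  have h14 : 1 / (4 * (T : ℝ)) ≤ 1 / 4 := by
    apply one_div_le_one_div_of_le (by norm_num) (by linarith)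
  have hvn : ‖v‖ ≤ B * (5 / 4) := by
    rw [hv, norm_mul, norm_mul, hdn, mul_one, Complex.norm_real, Real.norm_eq_abs,
      abs_of_pos (by linarith)]
    gcongr
    linarith
  have hvn2 : B - 2 ≤ ‖v‖ := by
    rw [hv, norm_mul, norm_mul, hdn, mul_one, Complex.norm_real, Real.norm_eq_abs,
      abs_of_pos (by linarith)]
    have h1 : 1 ≤ ‖(1 + ((1 / (4 * T) : ℝ) : ℂ) * I : ℂ)‖ := by
      have := Complex.abs_re_le_norm (1 + ((1 / (4 * T) : ℝ) : ℂ) * I : ℂ)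
      have e1 : (1 + ((1 / (4 * T) : ℝ) : ℂ) * I : ℂ).re = 1 := by
        rw [Complex.add_re, Complex.one_re, Complex.re_ofReal_mul, Complex.I_re, mul_zero, add_zero]
      rw [e1, abs_one] at this
      exact this
    nlinarith
  have hu'n : ‖toComplex u'‖ ≤ 2 * B := by
    have := norm_sub_norm_le (toComplex u') v
    linarith
  have hu'0 : u' ≠ 0 := by
    rintro rfl
    rw [map_zero, zero_sub, norm_neg] at hu'
    linarith
  obtain ⟨g, u, hg, hprim, hgu, hgn⟩ := exists_prim hu'0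
  have hg1 : (1 : ℝ) ≤ g := by exact_mod_cast hg
  have hg0 : (0 : ℝ) < g := by linarith
  have hgC : (g : ℂ) ≠ 0 := by exact_mod_cast hg0.ne'
  have hucu : toComplex u' = (g : ℂ) * toComplex u := by
    rw [hgu, map_mul, map_natCast]
  refine ⟨u, hprim, ?_, ?_⟩
  · have h1 : ‖toComplex u'‖ = g * ‖toComplex u‖ := by
      rw [hucu, norm_mul, Complex.norm_natCast]
    have h2 : ‖toComplex u‖ ≤ g * ‖toComplex u‖ := by
      have := norm_nonneg (toComplex u)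
      nlinarith
    rw [hB] at hu'n
    linarith
  intro Z hZ
  -- size of `Z`
  have hT64 : ‖zQ‖ / (64 * T) ≤ ‖zQ‖ / 2 := by
    apply div_le_div_of_nonneg_left hQ0.le (by norm_num) (by linarith)
  have hZ1 : ‖zQ‖ / 2 ≤ ‖Z‖ := by
    have := norm_sub_norm_le zQ Z
    rw [norm_sub_rev] at this
    linarith
  have hZ2 : ‖Z‖ ≤ 2 * ‖zQ‖ := by
    have := norm_sub_norm_le Z zQ
    linarith
  have hZ0 : 0 < ‖Z‖ := by linarith
  have hZne : Z ≠ 0 := norm_pos_iff.1 hZ0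
  -- the number `q`
  set q : ℂ := toComplex u' * (starRingEnd ℂ) Z / ((‖zQ‖ : ℝ) : ℂ) with hq
  have hq1 : q = (B : ℂ) * (1 + ((1 / (4 * T) : ℝ) : ℂ) * I) +
      ((toComplex u' - v) * (starRingEnd ℂ) d +
        toComplex u' * (starRingEnd ℂ) (Z - zQ) / ((‖zQ‖ : ℝ) : ℂ)) := by
    have h1 : (starRingEnd ℂ) d = (starRingEnd ℂ) zQ / ((‖zQ‖ : ℝ) : ℂ) := by
      rw [hd, map_div₀, Complex.conj_ofReal]
    have h2 : v * (starRingEnd ℂ) d = (B : ℂ) * (1 + ((1 / (4 * T) : ℝ) : ℂ) * I) := by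
      rw [hv]
      calc (B : ℂ) * d * (1 + ((1 / (4 * T) : ℝ) : ℂ) * I) * (starRingEnd ℂ) d
          = (B : ℂ) * (1 + ((1 / (4 * T) : ℝ) : ℂ) * I) * (d * (starRingEnd ℂ) d) := by ring
        _ = _ := by rw [hdd, mul_one]
    rw [sub_mul, h2, h1, map_sub, hq]
    field_simp
    ring
  have herr : ‖(toComplex u' - v) * (starRingEnd ℂ) d +
        toComplex u' * (starRingEnd ℂ) (Z - zQ) / ((‖zQ‖ : ℝ) : ℂ)‖ ≤ 2 := by
    refine (norm_add_le _ _).trans ?_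
    have h1 : ‖(toComplex u' - v) * (starRingEnd ℂ) d‖ ≤ 1 := by
      rw [norm_mul, Complex.norm_conj, hdn, mul_one]
      exact hu'
    have h2 : ‖toComplex u' * (starRingEnd ℂ) (Z - zQ) / ((‖zQ‖ : ℝ) : ℂ)‖ ≤ 1 := by
      rw [norm_div, norm_mul, Complex.norm_conj, Complex.norm_real, norm_norm, div_le_one hQ0]
      calc ‖toComplex u'‖ * ‖Z - zQ‖ ≤ (2 * B) * (‖zQ‖ / (64 * T)) := by gcongr
        _ = ‖zQ‖ := by rw [hB]; field_simp; ring
    linarith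
  set er : ℂ := (toComplex u' - v) * (starRingEnd ℂ) d +
        toComplex u' * (starRingEnd ℂ) (Z - zQ) / ((‖zQ‖ : ℝ) : ℂ) with her
  have hre : q.re = B + er.re := by
    rw [hq1, Complex.add_re, Complex.re_ofReal_mul, Complex.add_re, Complex.one_re,
      Complex.re_ofReal_mul, Complex.I_re, mul_zero, add_zero, mul_one]
  have him : q.im = 8 + er.im := by
    rw [hq1, Complex.add_im, Complex.im_ofReal_mul, Complex.add_im, Complex.one_im,
      Complex.im_ofReal_mul, Complex.I_im, mul_one, zero_add]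
    congr 1
    rw [hB]
    field_simp
    norm_num
  have her1 := (Complex.abs_re_le_norm er).trans herr
  have her2 := (Complex.abs_im_le_norm er).trans herr
  rw [abs_le] at her1 her2
  have hqre1 : B - 2 ≤ q.re := by linarith [her1.1]
  have hqre2 : q.re ≤ B + 2 := by linarith [her1.2]
  have hqim1 : 6 ≤ q.im := by linarith [her2.1]
  have hqim2 : q.im ≤ 10 := by linarith [her2.2]
  have hqre0 : 0 < q.re := by linarith
  -- the formula
  have hform : toComplex u / Z = ((‖zQ‖ / (g * ‖Z‖ ^ 2) : ℝ) : ℂ) * q := by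
    have h1 : Z * (starRingEnd ℂ) Z = ((‖Z‖ ^ 2 : ℝ) : ℂ) := by
      rw [Complex.mul_conj, Complex.normSq_eq_norm_sq]
    have hZC : ((‖Z‖ : ℝ) : ℂ) ≠ 0 := by exact_mod_cast hZ0.ne'
    rw [hq, hucu, div_eq_iff hZne]
    push_cast at h1 ⊢
    field_simp
    rw [mul_assoc, mul_comm ((starRingEnd ℂ) Z) Z, h1]
  refine ⟨‖zQ‖ / (g * ‖Z‖ ^ 2) * q.re, q.im / q.re, ?_, ?_, ?_, ?_, ?_⟩
  · rw [hform]
    have h1 : q = (q.re : ℂ) + (q.im : ℂ) * I := (Complex.re_add_im q).symm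
    have hqC : (q.re : ℂ) ≠ 0 := by exact_mod_cast hqre0.ne'
    conv_lhs => rw [h1]
    push_cast
    field_simp
  · -- lower bound
    have h1 : (g : ℝ) * ‖Z‖ ^ 2 ≤ (2 * B) * (2 * ‖zQ‖) ^ 2 := by
      gcongr
      linarith
    have h2 : 0 < (g : ℝ) * ‖Z‖ ^ 2 := by positivity
    rw [div_mul_eq_mul_div, div_le_div_iff₀ (by positivity) h2]
    calc 1 * ((g : ℝ) * ‖Z‖ ^ 2) ≤ (2 * B) * (2 * ‖zQ‖) ^ 2 := by rw [one_mul]; exact h1
      _ = ‖zQ‖ ^ 2 * (8 * B) := by ring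
      _ ≤ ‖zQ‖ ^ 2 * (16 * q.re) := mul_le_mul_of_nonneg_left (by linarith) (by positivity)
      _ = _ := by ring
  · have h1 : (1 : ℝ) * (‖zQ‖ / 2) ^ 2 ≤ (g : ℝ) * ‖Z‖ ^ 2 := by gcongr
    have h2 : 0 < (g : ℝ) * ‖Z‖ ^ 2 := by positivity
    rw [div_mul_eq_mul_div, div_le_div_iff₀ h2 hQ0]
    calc ‖zQ‖ * q.re * ‖zQ‖ = ‖zQ‖ ^ 2 * q.re := by ring
      _ ≤ ‖zQ‖ ^ 2 * (2 * B) := by gcongr; linarith
      _ = (256 * T) * (1 * (‖zQ‖ / 2) ^ 2) := by rw [hB]; ring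
      _ ≤ _ := by gcongr
  · rw [div_le_div_iff₀ (by positivity) hqre0]
    nlinarith
  · rw [← mul_div_assoc, div_le_iff₀ hqre0]
    have h1 : (T : ℝ) * q.im ≤ T * 10 := by gcongr
    have h2 : B = 32 * T := hB
    linarith

/-- all lines through a cell near `zQ` are good -/
lemma cell_good (T : ℕ) (hT : 1 ≤ T) (r : ℝ) (S : ℕ) (hS : 1 ≤ S)
    (hS1 : r / (40960 * T ^ 2) / 2 ≤ (S : ℝ)) (hS2 : (S : ℝ) ≤ r / (40960 * T ^ 2))
    (zQ : GaussianInt) (hQ1 : r / 2 ≤ ‖toComplex zQ‖) (hQ2 : ‖toComplex zQ‖ ≤ 2 * r) :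
    ∃ u : GaussianInt, prim u ∧ ‖toComplex u‖ ≤ 64 * T ∧ ∀ z₀ : GaussianInt,
      |z₀.re - zQ.re| < S → |z₀.im - zQ.im| < S →
      Good T (1 / (40960 * T ^ 2 * 32)) (6 / (32 * T + 2)) ((2 * S : ℕ) : ℝ) (toComplex z₀)
        (toComplex u) := by
  have hT' : (1 : ℝ) ≤ T := by exact_mod_cast hT
  have hS0 : (0 : ℝ) < S := by exact_mod_cast hS
  have hr : 0 < r := by
    have h1 : 0 < r / (40960 * T ^ 2) := by linarith
    have h2 : (0 : ℝ) < 40960 * T ^ 2 := by positivity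
    by_contra hcon
    push Not at hcon
    have := div_nonpos_of_nonpos_of_nonneg hcon h2.le
    linarith
  have hQ0 : 0 < ‖toComplex zQ‖ := by linarith
  obtain ⟨u, hprim, hun, hdir⟩ := exists_dir T hT (toComplex zQ) (norm_pos_iff.1 hQ0)
  refine ⟨u, hprim, hun, ?_⟩
  intro z₀ hz1 hz2 t ht0 ht1
  have hS2' : (S : ℝ) * (40960 * T ^ 2) ≤ r := by
    rwa [le_div_iff₀ (by positivity)] at hS2
  have hS1' : r ≤ 2 * (S : ℝ) * (40960 * T ^ 2) := by
    rw [div_div, div_le_iff₀ (by positivity)] at hS1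
    linarith
  have hz1' : |(z₀.re : ℝ) - zQ.re| ≤ S := by
    have : |z₀.re - zQ.re| ≤ (S : ℤ) := hz1.le
    exact_mod_cast this
  have hz2' : |(z₀.im : ℝ) - zQ.im| ≤ S := by
    have : |z₀.im - zQ.im| ≤ (S : ℤ) := hz2.le
    exact_mod_cast this
  have hd1 : ‖toComplex z₀ - toComplex zQ‖ ≤ 2 * S := by
    refine (Complex.norm_le_abs_re_add_abs_im _).trans ?_
    rw [Complex.sub_re, Complex.sub_im, toC_re, toC_re, toC_im, toC_im]
    linarith
  have hd2 : ‖(t : ℂ) * toComplex u‖ ≤ (4 * S) * (64 * T) := by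
    rw [norm_mul, Complex.norm_real, Real.norm_eq_abs, abs_of_nonneg ht0]
    push_cast at ht1
    gcongr
    linarith
  have hd : ‖toComplex z₀ + t * toComplex u - toComplex zQ‖ ≤ ‖toComplex zQ‖ / (64 * T) := by
    have h1 : ‖toComplex z₀ + t * toComplex u - toComplex zQ‖ ≤ 2 * S + (4 * S) * (64 * T) := by
      have e1 : toComplex z₀ + t * toComplex u - toComplex zQ =
        (toComplex z₀ - toComplex zQ) + t * toComplex u := by ring
      rw [e1]
      exact (norm_add_le _ _).trans (add_le_add hd1 hd2)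
    refine h1.trans ?_
    rw [le_div_iff₀ (by positivity)]
    have h2 : (2 * (S : ℝ) + (4 * S) * (64 * T)) * (64 * T) ≤ S * (20480 * T ^ 2) := by
      have : (2 * (S : ℝ) + (4 * S) * (64 * T)) ≤ S * (320 * T) := by nlinarith
      calc (2 * (S : ℝ) + (4 * S) * (64 * T)) * (64 * T) ≤ (S * (320 * T)) * (64 * T) := by
            gcongr
        _ = _ := by ring
    have h3 : (S : ℝ) * (20480 * T ^ 2) ≤ r / 2 := by linarith
    linarith
  obtain ⟨x, τ, h1, h2, h3, h4, h5⟩ := hdir _ hd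
  refine ⟨((2 * S : ℕ) : ℝ) * x, τ, ?_, ?_, ?_, h4, h5⟩
  · rw [mul_div_assoc, h1]
    push_cast
    ring
  · have h6 : ((2 * S : ℕ) : ℝ) * (1 / (16 * ‖toComplex zQ‖)) ≤ ((2 * S : ℕ) : ℝ) * x := by
      gcongr
    refine le_trans ?_ h6
    rw [mul_one_div, div_le_div_iff₀ (by positivity) (by positivity)]
    push_cast
    calc 1 * (16 * ‖toComplex zQ‖) ≤ 32 * r := by linarith
      _ ≤ 32 * (2 * (S : ℝ) * (40960 * T ^ 2)) := by linarith
      _ = _ := by ring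
  · have h6 : ((2 * S : ℕ) : ℝ) * x ≤ ((2 * S : ℕ) : ℝ) * (256 * T / ‖toComplex zQ‖) := by
      gcongr
    refine h6.trans ?_
    rw [← mul_div_assoc, div_le_one hQ0]
    push_cast
    have h7 : (2 * (S : ℝ)) * (256 * T) ≤ S * (20480 * T ^ 2) := by
      have : (512 : ℝ) * T ≤ 20480 * T ^ 2 := by nlinarith
      calc (2 * (S : ℝ)) * (256 * T) = S * (512 * T) := by ring
        _ ≤ _ := by gcongr
    linarith

end Pool.Agent.W540.GM
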