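import Pool.Agent.W540.GM.AngC

/-!
GM-H: angular sums by van der Corput, part D: the sum over a convex set in a cell.
-/

set_option autoImplicit false

namespace Pool.Agent.W540.GM

open Finset Complex
open Pool.Agent.W78.GM
open GaussianInt (toComplex)

/-- convexity along lines -/
def LConv (E : Finset GaussianInt) : Prop :=
  ∀ z ∈ E, ∀ (u : GaussianInt) (n j : ℕ), z + (n : GaussianInt) * u ∈ E → j ≤ n →
    z + (j : GaussianInt) * u ∈ E

lemma dt_add_mul (u z : GaussianInt) (n : ℤ) : dt u (z + (n : GaussianInt) * u) = dt u z := by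
  unfold dt
  simp only [Zsqrtd.re_add, Zsqrtd.im_add, Zsqrtd.re_mul, Zsqrtd.im_mul, Zsqrtd.re_intCast,
    Zsqrtd.im_intCast]
  ring

lemma dt_add_natMul (u z : GaussianInt) (n : ℕ) : dt u (z + (n : GaussianInt) * u) = dt u z := by
  have := dt_add_mul u z n
  push_cast at this
  exact this

lemma re_add_natMul (u z : GaussianInt) (n : ℕ) :
    (z + (n : GaussianInt) * u).re = z.re + n * u.re := by
  simp [Zsqrtd.re_mul]

lemma im_add_natMul (u z : GaussianInt) (n : ℕ) :
    (z + (n : GaussianInt) * u).im = z.im + n * u.im := by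
  simp [Zsqrtd.im_mul]

/-- points on the same line of direction `u`, `u` primitive -/
lemma exists_int_of_dt_eq {u z z' : GaussianInt} (hu : prim u) (h : dt u z = dt u z') :
    ∃ n : ℤ, z' = z + (n : GaussianInt) * u := by
  have hg := Int.gcd_eq_gcd_ab u.re u.im
  unfold prim at hu
  rw [hu] at hg
  set a := Int.gcdA u.re u.im
  set b := Int.gcdB u.re u.im
  unfold dt at h
  push_cast at hg
  refine ⟨a * (z'.re - z.re) + b * (z'.im - z.im), ?_⟩
  apply Zsqrtd.ext
  · simp only [Zsqrtd.re_add, Zsqrtd.re_mul, Zsqrtd.re_intCast, Zsqrtd.im_intCast]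
    linear_combination (z'.re - z.re) * hg + b * h
  · simp only [Zsqrtd.im_add, Zsqrtd.im_mul, Zsqrtd.re_intCast, Zsqrtd.im_intCast]
    linear_combination (z'.im - z.im) * hg - a * h

/-- the sum over a convex set of points on a line -/
lemma line_sum {u : GaussianInt} (hu : prim u) {E : Finset GaussianInt} (hE : LConv E) {c : ℤ}
    (hne : (E.filter (fun z => dt u z = c)).Nonempty) : ∃ z₀ ∈ E, ∃ L : ℕ,
      1 ≤ L ∧ z₀ + ((L - 1 : ℕ) : GaussianInt) * u ∈ E ∧
      ∀ f : GaussianInt → ℂ, ∑ z ∈ E.filter (fun z => dt u z = c), f z =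
        ∑ n ∈ range L, f (z₀ + (n : GaussianInt) * u) := by
  classical
  set F := E.filter (fun z => dt u z = c) with hF
  obtain ⟨z₀, hz₀, hmin⟩ := F.exists_min_image (fun z => ip u z) hne
  have hz₀E : z₀ ∈ E := (mem_filter.1 hz₀).1
  have hz₀c : dt u z₀ = c := (mem_filter.1 hz₀).2
  have hnu : (0 : ℤ) < nm u := by exact_mod_cast nm_pos (prim_ne_zero hu)
  -- every element of `F` is `z₀ + n u`
  have hform : ∀ z ∈ F, ∃ n : ℕ, z = z₀ + (n : GaussianInt) * u := by
    intro z hz
    obtain ⟨n, hn⟩ := exists_int_of_dt_eq hu (hz₀c.trans (mem_filter.1 hz).2.symm)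
    have h1 := hmin z hz
    have h2 : ip u z = ip u z₀ + n * nm u := by
      rw [hn, nm_cast]
      unfold ip
      simp only [Zsqrtd.re_add, Zsqrtd.im_add, Zsqrtd.re_mul, Zsqrtd.im_mul, Zsqrtd.re_intCast,
        Zsqrtd.im_intCast]
      ring
    rw [h2] at h1
    have h3 : 0 ≤ n := by
      by_contra hcon
      push Not at hcon
      have := mul_neg_of_neg_of_pos hcon hnu
      linarith
    obtain ⟨m, rfl⟩ := Int.eq_ofNat_of_zero_le h3
    exact ⟨m, by push_cast at hn; exact hn⟩
  have hmemF : ∀ n : ℕ, z₀ + (n : GaussianInt) * u ∈ E → z₀ + (n : GaussianInt) * u ∈ F := by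
    intro n hn
    rw [hF, mem_filter, dt_add_natMul]
    exact ⟨hn, hz₀c⟩
  have hinj : ∀ m n : ℕ, z₀ + (m : GaussianInt) * u = z₀ + (n : GaussianInt) * u → m = n := by
    intro m n h
    have h1 := add_left_cancel h
    have h2 := mul_right_cancel₀ (prim_ne_zero hu) h1
    exact_mod_cast h2
  -- the first `n` with `z₀ + n u ∉ E`
  have hex : ∃ n : ℕ, z₀ + (n : GaussianInt) * u ∉ E := by
    by_contra hcon
    push Not at hcon
    have h1 : (Set.univ : Set ℕ).Infinite := Set.infinite_univ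
    refine h1 ?_
    refine Set.Finite.of_finite_image (f := fun n : ℕ => z₀ + (n : GaussianInt) * u)
      (E.finite_toSet.subset ?_) (fun m _ n _ h => hinj m n h)
    rintro _ ⟨n, _, rfl⟩
    exact hcon n
  set L := Nat.find hex with hL
  have hlt : ∀ n < L, z₀ + (n : GaussianInt) * u ∈ E := by
    intro n hn
    by_contra hcon
    exact Nat.find_min hex hn hcon
  have hLspec : z₀ + (L : GaussianInt) * u ∉ E := Nat.find_spec hex
  have hL1 : 1 ≤ L := by
    rw [Nat.one_le_iff_ne_zero]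
    intro h0
    rw [h0] at hLspec
    apply hLspec
    simpa using hz₀E
  refine ⟨z₀, hz₀E, L, hL1, hlt _ (by omega), ?_⟩
  intro f
  have himg : F = (range L).image (fun n : ℕ => z₀ + (n : GaussianInt) * u) := by
    ext z
    rw [mem_image]
    constructor
    · intro hz
      obtain ⟨n, hn⟩ := hform z hz
      refine ⟨n, ?_, hn.symm⟩
      rw [mem_range]
      by_contra hcon
      push Not at hcon
      apply hLspec
      refine hE z₀ hz₀E u n L ?_ hcon
      rw [← hn]
      exact (mem_filter.1 hz).1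
    · rintro ⟨n, hn, rfl⟩
      exact hmemF n (hlt n (mem_range.1 hn))
  rw [himg, sum_image]
  intro m _ n _ h
  exact hinj m n h

lemma abs_re_le {u : GaussianInt} {N : ℕ} (h : ‖toComplex u‖ ≤ N) : |u.re| ≤ N := by
  have h1 := (Complex.abs_re_le_norm (toComplex u)).trans h
  rw [toC_re] at h1
  exact_mod_cast h1

lemma abs_im_le {u : GaussianInt} {N : ℕ} (h : ‖toComplex u‖ ≤ N) : |u.im| ≤ N := by
  have h1 := (Complex.abs_im_le_norm (toComplex u)).trans h
  rw [toC_im] at h1
  exact_mod_cast h1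

/-- length of the segments -/
lemma length_le {u z₀ zQ : GaussianInt} (hu : u ≠ 0) {S m : ℕ}
    (h1 : |z₀.re - zQ.re| < S) (h2 : |z₀.im - zQ.im| < S)
    (h3 : |(z₀ + (m : GaussianInt) * u).re - zQ.re| < S)
    (h4 : |(z₀ + (m : GaussianInt) * u).im - zQ.im| < S) : m + 1 ≤ 2 * S := by
  rw [re_add_natMul] at h3
  rw [im_add_natMul] at h4
  have h5 : u.re ≠ 0 ∨ u.im ≠ 0 := by
    by_contra hcon
    push Not at hcon
    exact hu (Zsqrtd.ext hcon.1 hcon.2)
  have key : ∀ x y : ℤ, |x| < S → |x + m * y| < S → y ≠ 0 → m + 1 ≤ 2 * S := by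
    intro x y hx hy hy0
    have h6 : |(m : ℤ) * y| < 2 * S := by
      have e : (m : ℤ) * y = (x + m * y) - x := by ring
      rw [e]
      refine (abs_sub _ _).trans_lt ?_
      linarith
    rw [abs_mul, Nat.abs_cast] at h6
    have h7 : 1 ≤ |y| := Int.one_le_abs hy0
    have h8 : (m : ℤ) < 2 * S := by nlinarith
    omega
  rcases h5 with h5 | h5
  · exact key (z₀.re - zQ.re) u.re h1 (by
      rw [show z₀.re - zQ.re + m * u.re = z₀.re + m * u.re - zQ.re by ring]; exact h3) h5
  · exact key (z₀.im - zQ.im) u.im h2 (by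
      rw [show z₀.im - zQ.im + m * u.im = z₀.im + m * u.im - zQ.im by ring]; exact h4) h5

/-- the sum over a convex set in a cell, given the bound for lines -/
lemma cell_bound {T S : ℕ} {u zQ : GaussianInt} (hu : prim u)
    (hun : ‖toComplex u‖ ≤ 64 * T) {E : Finset GaussianInt} (hE : LConv E)
    (hES : ∀ z ∈ E, |z.re - zQ.re| < S ∧ |z.im - zQ.im| < S) {f : GaussianInt → ℂ} {b : ℝ}
    (hb : 0 ≤ b)
    (hline : ∀ z₀ ∈ E, ∀ L : ℕ, L ≤ 2 * S →
      ‖∑ n ∈ range L, f (z₀ + (n : GaussianInt) * u)‖ ≤ b) :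
    ‖∑ z ∈ E, f z‖ ≤ (256 * T * S + 1 : ℕ) * b := by
  classical
  have hre : |u.re| ≤ (64 * T : ℕ) := abs_re_le (by push_cast; exact hun)
  have him : |u.im| ≤ (64 * T : ℕ) := abs_im_le (by push_cast; exact hun)
  set N : ℤ := ((128 * T * S : ℕ) : ℤ) with hN
  have hmaps : ∀ z ∈ E, dt u z ∈ Icc (dt u zQ - N) (dt u zQ + N) := by
    intro z hz
    obtain ⟨h1, h2⟩ := hES z hz
    have h3 : dt u z - dt u zQ = u.re * (z.im - zQ.im) - u.im * (z.re - zQ.re) := by
      unfold dt; ring
    have h4 : |dt u z - dt u zQ| ≤ N := by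
      rw [h3]
      refine (abs_sub _ _).trans ?_
      rw [abs_mul, abs_mul]
      have h5 : |u.re| * |z.im - zQ.im| ≤ (64 * T : ℕ) * (S : ℤ) :=
        mul_le_mul hre h2.le (abs_nonneg _) (by positivity)
      have h6 : |u.im| * |z.re - zQ.re| ≤ (64 * T : ℕ) * (S : ℤ) :=
        mul_le_mul him h1.le (abs_nonneg _) (by positivity)
      rw [hN]
      push_cast at h5 h6 ⊢
      linarith
    rw [abs_le] at h4
    rw [mem_Icc]
    constructor <;> linarith [h4.1, h4.2]
  rw [← sum_fiberwise_of_maps_to hmaps]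
  refine (norm_sum_le _ _).trans ?_
  have hcard : (Icc (dt u zQ - N) (dt u zQ + N)).card = 256 * T * S + 1 := by
    rw [Int.card_Icc, hN]
    push_cast
    rw [show dt u zQ + 128 * (T : ℤ) * S + 1 - (dt u zQ - 128 * T * S) =
      ((256 * T * S + 1 : ℕ) : ℤ) by push_cast; ring]
    exact Int.toNat_natCast _
  calc ∑ c ∈ Icc (dt u zQ - N) (dt u zQ + N), ‖∑ z ∈ E.filter (fun z => dt u z = c), f z‖
      ≤ ∑ c ∈ Icc (dt u zQ - N) (dt u zQ + N), b := by
        refine sum_le_sum fun c _ => ?_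
        by_cases hne : (E.filter (fun z => dt u z = c)).Nonempty
        · obtain ⟨z₀, hz₀, L, hL1, hmem, hsum⟩ := line_sum hu hE hne
          rw [hsum f]
          apply hline z₀ hz₀ L
          have h5 := hES _ hz₀
          have h6 := hES _ hmem
          have := length_le (prim_ne_zero hu) h5.1 h5.2 h6.1 h6.2
          omega
        · rw [not_nonempty_iff_eq_empty] at hne
          rw [hne, sum_empty, norm_zero]
          exact hb
    _ = _ := by
        rw [sum_const, hcard, nsmul_eq_mul]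

end Pool.Agent.W540.GM
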